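import Mathlib
import Pool.Agent.Run7.h155.OneArrow

set_option autoImplicit false

namespace Pool.Agent.Results.MP_a20de0_al.OneArrow

open CategoryTheory

/-- The Cartan determinant conjecture for elementary algebras of finite global dimension with two
simple modules whose quiver has at most one arrow in one of the two directions
(`e j (rad A / rad² A) e i` has dimension at most one). -/
theorem result {k A : Type} [Field k] [Ring A] [Algebra k A] [Module.Finite k A]
    (e : Fin 2 → A) (he : CompleteOrthogonalIdempotents e) (hne : ∀ i, e i ≠ 0)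
    (hsplit : ∀ x : A, ∃ c : Fin 2 → k, x - ∑ i, c i • e i ∈ Ring.jacobson A)
    (hgl : ∃ m : ℕ, ∀ M : ModuleCat.{0} A, HasProjectiveDimensionLT M m)
    (i j : Fin 2) (hij : i ≠ j)
    (harrow : ∃ y : A, ∀ x ∈ Ring.jacobson A, ∃ c : k,
      e j * x * e i - c • y ∈ (Ring.jacobson A) ^ 2) :
    (Matrix.of fun i j => (Module.finrank k (LinearMap.range
        ((LinearMap.mulLeft k (e i)).comp (LinearMap.mulRight k (e j)))) : ℤ)).det = 1 :=
  Pool.Agent.Run7.h155.one_arrow ⟨he, hne, hsplit⟩ hgl hij harrow

end Pool.Agent.Results.MP_a20de0_al.OneArrow
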