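import Mathlib
import Pool.Agent.Run7.h155.SignLaw

set_option autoImplicit false

namespace Pool.Agent.Results.MP_a20de0_al.SignLaw

open CategoryTheory

/-- Let `A` be a finite dimensional algebra over a field `k`, of finite global dimension, with
complete orthogonal idempotents `e 0, …, e n` spanning `A` modulo its radical. Let `S` be the
simple module belonging to `i₀` and suppose that its projective dimension is at most two, or at
most three and that some nonzero `z = z * e i₀` satisfies `z J = 0`. Then the Cartan determinant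
of `A` has the sign of the Cartan determinant of `(1 - e i₀) A (1 - e i₀)`. -/
theorem result {k A : Type} [Field k] [Ring A] [Algebra k A] [Module.Finite k A] {n : ℕ}
    (e : Fin (n + 1) → A) (he : CompleteOrthogonalIdempotents e) (hne : ∀ i, e i ≠ 0)
    (hsplit : ∀ x : A, ∃ c : Fin (n + 1) → k, x - ∑ i, c i • e i ∈ Ring.jacobson A)
    (hgl : ∃ m : ℕ, ∀ M : ModuleCat.{0} A, HasProjectiveDimensionLT M m)
    (i₀ : Fin (n + 1)) (S : Type) [AddCommGroup S] [Module A S] [IsSimpleModule A S]
    (hS : ∃ s : S, e i₀ • s ≠ 0)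
    (hpd : HasProjectiveDimensionLT (ModuleCat.of A S) 3 ∨
      (HasProjectiveDimensionLT (ModuleCat.of A S) 4 ∧
        ∃ z : A, z ≠ 0 ∧ z * e i₀ = z ∧ ∀ x ∈ Ring.jacobson A, z * x = 0)) :
    let C : Matrix (Fin (n + 1)) (Fin (n + 1)) ℤ := Matrix.of fun i j =>
      (Module.finrank k (LinearMap.range
        ((LinearMap.mulLeft k (e i)).comp (LinearMap.mulRight k (e j)))) : ℤ)
    0 < C.det * (C.submatrix i₀.succAbove i₀.succAbove).det ∧
      C.det = Int.sign (C.submatrix i₀.succAbove i₀.succAbove).det :=
  Pool.Agent.Run7.h155.sign_law ⟨he, hne, hsplit⟩ hgl i₀ S hS hpd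

end Pool.Agent.Results.MP_a20de0_al.SignLaw
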