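import Mathlib
import Pool.Agent.Run7.h155.TwoSimples

set_option autoImplicit false

namespace Pool.Agent.Results.MP_a20de0_al.TwoSimples

open CategoryTheory

/-- The Cartan determinant conjecture for elementary algebras with two simple modules and global
dimension at most three, and for those of global dimension at most four for which, for some `i`,
the `i`-th simple left module occurs in the left socle and the `i`-th simple right module occurs
in the right socle. -/
theorem result {k A : Type} [Field k] [Ring A] [Algebra k A] [Module.Finite k A]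
    (e : Fin 2 → A) (he : CompleteOrthogonalIdempotents e) (hne : ∀ i, e i ≠ 0)
    (hsplit : ∀ x : A, ∃ c : Fin 2 → k, x - ∑ i, c i • e i ∈ Ring.jacobson A)
    (hgl : (∀ M : ModuleCat.{0} A, HasProjectiveDimensionLT M 4) ∨
      ((∀ M : ModuleCat.{0} A, HasProjectiveDimensionLT M 5) ∧
        ∃ i, ∃ z w : A, z ≠ 0 ∧ z * e i = z ∧ (∀ x ∈ Ring.jacobson A, z * x = 0) ∧
          w ≠ 0 ∧ e i * w = w ∧ (∀ x ∈ Ring.jacobson A, x * w = 0))) :
    (Matrix.of fun i j => (Module.finrank k (LinearMap.range
        ((LinearMap.mulLeft k (e i)).comp (LinearMap.mulRight k (e j)))) : ℤ)).det = 1 :=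
  Pool.Agent.Run7.h155.two_simples ⟨he, hne, hsplit⟩ hgl

end Pool.Agent.Results.MP_a20de0_al.TwoSimples
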