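import Mathlib
import Pool.Agent.Run7.h155.Corner

set_option autoImplicit false

namespace Pool.Agent.Results.MP_a20de0_al.UniserialCorner

open CategoryTheory

/-- The Cartan determinant conjecture for elementary algebras of finite global dimension with two
simple modules such that, for some `i`, the radical of the local algebra `e i A e i` is generated
by one element (`rad / rad²` of `e i A e i` has dimension at most one). -/
theorem result {k A : Type} [Field k] [Ring A] [Algebra k A] [Module.Finite k A]
    (e : Fin 2 → A) (he : CompleteOrthogonalIdempotents e) (hne : ∀ i, e i ≠ 0)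
    (hsplit : ∀ x : A, ∃ c : Fin 2 → k, x - ∑ i, c i • e i ∈ Ring.jacobson A)
    (hgl : ∃ m : ℕ, ∀ M : ModuleCat.{0} A, HasProjectiveDimensionLT M m)
    (i : Fin 2)
    (hcorner : ∃ x : A, ∀ z ∈ Ring.jacobson A, ∃ c : k, e i * z * e i - c • x ∈
      Submodule.span k {w : A | ∃ a ∈ Ring.jacobson A, ∃ b ∈ Ring.jacobson A,
        w = e i * a * e i * b * e i}) :
    (Matrix.of fun i j => (Module.finrank k (LinearMap.range
        ((LinearMap.mulLeft k (e i)).comp (LinearMap.mulRight k (e j)))) : ℤ)).det = 1 := by
  obtain ⟨j, hij⟩ : ∃ j, i ≠ j := ⟨1 - i, by fin_cases i <;> decide⟩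
  exact Pool.Agent.Run7.h155.uniserial_corner ⟨he, hne, hsplit⟩ hgl hij hcorner

end Pool.Agent.Results.MP_a20de0_al.UniserialCorner
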